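import Pool.Agent.helper19.MX.SpecC

/-!
# Row EV3: the sign
-/

namespace MX

open Pool.Agent.helper53.AU AN
open scoped Classical Topology

theorem EV3 : EV3_stmt := by
  intro K _ _ n hK j hj z y hy
  have hinj : Function.Injective j := j.injective
  constructor
  · intro h
    obtain ⟨a, ha⟩ := hj y h
    have h1 : a ^ 2 + a = z := by
      apply hinj
      rw [map_add, map_pow, ha, hy]
    unfold ps
    rw [if_pos ⟨a, h1⟩]
  · intro h
    unfold ps
    rw [if_neg]
    rintro ⟨a, ha⟩
    have h2 : (2 : kk) = 0 := CharTwo.two_eq_zero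
    have h3 : a ^ (4 ^ n) = a := by
      rw [← hK]
      exact FiniteField.pow_card a
    have h4 : (j a) ^ (4 ^ n) = j a := by rw [← map_pow, h3]
    have h5 : (y + j a) * (y + j a + 1) = 0 := by
      have e1 : y ^ 2 + y = (j a) ^ 2 + j a := by
        rw [hy, ← ha, map_add, map_pow]
      have e2 : (y + j a) * (y + j a + 1) = (y ^ 2 + y) + ((j a) ^ 2 + j a) + 2 * (y * j a) := by ring
      rw [e2, e1, h2]
      have e3 : (j a) ^ 2 + j a + ((j a) ^ 2 + j a) = 2 * ((j a) ^ 2 + j a) := by ring
      rw [e3, h2]
      ring
    have h6 : y ^ (4 ^ n) = y := by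
      rcases mul_eq_zero.mp h5 with h7 | h7
      · have e : y = j a := by
          have := eq_neg_of_add_eq_zero_left h7
          rw [this, CharTwo.neg_eq]
        rw [e, h4]
      · have e : y = j a + 1 := by
          have e1 : y + (j a + 1) = 0 := by rw [← h7]; ring
          have := eq_neg_of_add_eq_zero_left e1
          rw [this, CharTwo.neg_eq]
        have e4 : (4 : ℕ) ^ n = 2 ^ (2 * n) := by
          rw [pow_mul]
          norm_num
        rw [e, e4, add_pow_char_pow, one_pow, ← e4, h4]
    rw [h6] at h
    have h8 : (1 : kk) = 0 := by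
      have := h.symm
      rwa [add_eq_left] at this
    exact one_ne_zero h8

end MX
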