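import Pool.Agent.helper19.MX.SpecD

/-!
# Row GE1: the genus of `y^2 + y = f(x)`
-/

set_option linter.unusedVariables false

namespace MX

open Pool.Agent.helper53.AU AN
open scoped Classical Topology IntermediateField
open Finset (range powerset Icc)

theorem GE1_ge {k F : Type} [Field k] [Field F] [Algebra k F] (P : Place k F) (x : F)
    (hx : P.ord x < 0) (q : Polynomial k) (m : ℕ) (hq : q.natDegree ≤ m) :
    P.Ge ((m : ℤ) * P.ord x) (Polynomial.aeval x q) := by
  rw [Polynomial.aeval_eq_sum_range]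
  apply Place.Ge.sum
  intro i hi
  have h1 : i ≤ m := by
    rw [Finset.mem_range] at hi
    omega
  have hx0 : x ≠ 0 := by
    rintro rfl
    rw [P.ord_zero] at hx
    exact absurd hx (lt_irrefl 0)
  apply Place.Ge.smul
  right
  rw [P.ord_pow hx0]
  have h2 : (i : ℤ) ≤ m := by exact_mod_cast h1
  nlinarith

theorem GE1_ord {k F : Type} [Field k] [Field F] [Algebra k F] (P : Place k F) (x : F)
    (hx : P.ord x < 0) (p : Polynomial k) (hp : p ≠ 0) :
    Polynomial.aeval x p ≠ 0 ∧ P.ord (Polynomial.aeval x p) = (p.natDegree : ℤ) * P.ord x := by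
  have hx0 : x ≠ 0 := by
    rintro rfl
    rw [P.ord_zero] at hx
    exact absurd hx (lt_irrefl 0)
  have hlc : algebraMap k F p.leadingCoeff ≠ 0 := by
    simpa using hp
  have e : Polynomial.aeval x p =
      algebraMap k F p.leadingCoeff * x ^ p.natDegree + Polynomial.aeval x p.eraseLead := by
    conv_lhs => rw [← Polynomial.eraseLead_add_C_mul_X_pow p]
    rw [map_add, map_mul, map_pow, Polynomial.aeval_X, Polynomial.aeval_C, add_comm]
  have hne : algebraMap k F p.leadingCoeff * x ^ p.natDegree ≠ 0 := mul_ne_zero hlc (pow_ne_zero _ hx0)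
  have ho : P.ord (algebraMap k F p.leadingCoeff * x ^ p.natDegree) = (p.natDegree : ℤ) * P.ord x := by
    rw [P.ord_mul _ _ hlc (pow_ne_zero _ hx0), P.ord_const _ (by simpa using hp), P.ord_pow hx0, zero_add]
  by_cases hd : p.natDegree = 0
  · have h0 : p.eraseLead = 0 := by
      have h1 : p = Polynomial.C (p.coeff 0) := Polynomial.eq_C_of_natDegree_eq_zero hd
      rw [h1, Polynomial.eraseLead_C]
    rw [e, h0, map_zero, add_zero]
    exact ⟨hne, ho⟩
  · have hge : P.Ge (P.ord (algebraMap k F p.leadingCoeff * x ^ p.natDegree) + 1)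
        (Polynomial.aeval x p.eraseLead) := by
      have h1 := GE1_ge P x hx p.eraseLead (p.natDegree - 1) (Polynomial.eraseLead_natDegree_le p)
      refine h1.mono ?_
      rw [ho]
      have h2 : ((p.natDegree - 1 : ℕ) : ℤ) = (p.natDegree : ℤ) - 1 := by
        have : 1 ≤ p.natDegree := Nat.one_le_iff_ne_zero.mpr hd
        push_cast [Nat.cast_sub this]
        ring
      rw [h2]
      nlinarith
    have h3 := Place.ord_add_eq hne hge
    rw [← e, ho] at h3
    exact h3

/-- regular polynomials -/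
theorem GE1_reg {k F : Type} [Field k] [Field F] [Algebra k F] (P : Place k F) (x : F)
    (hx : P.Ge 0 x) (q : Polynomial k) : P.Ge 0 (Polynomial.aeval x q) := by
  rw [Polynomial.aeval_eq_sum_range]
  apply Place.Ge.sum
  intro i _
  apply Place.Ge.smul
  simpa using hx.pow i

/-- the order of `y^2 + y` at a pole of `y` -/
theorem GE1_sq {k F : Type} [Field k] [Field F] [Algebra k F] (P : Place k F) (y : F)
    (hy : P.ord y < 0) : y ^ 2 + y ≠ 0 ∧ P.ord (y ^ 2 + y) = 2 * P.ord y := by
  have hy0 : y ≠ 0 := by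
    rintro rfl
    rw [P.ord_zero] at hy
    exact absurd hy (lt_irrefl 0)
  have h1 : P.ord (y ^ 2) = 2 * P.ord y := by
    rw [P.ord_pow hy0]
    rfl
  have h2 : P.Ge (P.ord (y ^ 2) + 1) y := by
    right
    rw [h1]
    omega
  have h3 := Place.ord_add_eq (pow_ne_zero 2 hy0) h2
  rw [h1] at h3
  exact h3

/-- the conjugate place -/
def GE1_pl {k F : Type} [Field k] [Field F] [Algebra k F] (P : Place k F) (s : F ≃ₐ[k] F) : Place k F where
  ord z := P.ord (s z)
  ord_zero := by rw [map_zero]; exact P.ord_zero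
  ord_mul a b ha hb := by
    rw [map_mul]
    exact P.ord_mul _ _ ((map_ne_zero s).mpr ha) ((map_ne_zero s).mpr hb)
  ord_add a b ha hb hab := by
    rw [map_add] at *
    exact P.ord_add _ _ ((map_ne_zero s).mpr ha) ((map_ne_zero s).mpr hb)
      (by rw [← map_add]; exact (map_ne_zero s).mpr hab)
  ord_const c hc := by
    rw [AlgEquiv.commutes]
    exact P.ord_const c hc
  exists_uniformizer := by
    obtain ⟨t, ht, ht1⟩ := P.exists_uniformizer
    refine ⟨s.symm t, (map_ne_zero s.symm).mpr ht, ?_⟩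
    rw [AlgEquiv.apply_symm_apply]
    exact ht1

theorem GE1 (hTOW : TOW_stmt) (hBAS : BAS_stmt) (hAUT : AUT_stmt) (hRGX : RGX_stmt)
    (hQR2 : QR2_stmt) (hQA3 : QA3_stmt) : GE1_stmt := by
  intro k F _ _ _ _ _ x y f hA
  have perf : ∀ c : k, ∃ c' : k, c' ^ 2 = c := fun c => IsAlgClosed.exists_pow_nat_eq c (by norm_num)
  obtain ⟨_, P₀, _, hPx, hPu, _⟩ := hTOW k F perf x 1 y f hA
  obtain ⟨hFF, _, hspan⟩ := hBAS k F perf x 1 y f hA
  obtain ⟨σ, hσx, hσy, _⟩ := hAUT k F perf x 1 y f hA {0}
  have hchF : CharP F 2 := charP_of_injective_algebraMap (algebraMap k F).injective 2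
  have h2F : (2 : F) = 0 := CharTwo.two_eq_zero
  -- the degree
  obtain ⟨d, hd⟩ : ∃ d, d = (f 0).natDegree := ⟨_, rfl⟩
  have hodd : Odd d := by
    have h := hA.odd {0} (by simp) (by simp)
    rw [Finset.sum_singleton] at h
    rw [hd]
    exact h
  have hf0 : f 0 ≠ 0 := by
    intro h
    rw [hd, h, Polynomial.natDegree_zero] at hodd
    exact absurd hodd (by decide)
  have hdpos : 0 < d := hodd.pos
  have hPx' : P₀.ord x = -2 := by rw [hPx]; norm_num
  have hPneg : P₀.ord x < 0 := by rw [hPx']; norm_num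
  obtain ⟨y₀, hy₀⟩ : ∃ y₀, y₀ = y 0 := ⟨_, rfl⟩
  have heq : y₀ ^ 2 + y₀ = Polynomial.aeval x (f 0) := by
    rw [hy₀]
    exact hA.eq 0 (by norm_num)
  obtain ⟨hF0, hF1⟩ := GE1_ord P₀ x hPneg (f 0) hf0
  rw [← hd, hPx'] at hF1
  have hy0 : y₀ ≠ 0 := by
    rintro h
    rw [h] at heq
    apply hF0
    rw [← heq]
    simp
  have hordy : P₀.ord y₀ = -(d : ℤ) := by
    have hneg : P₀.ord y₀ < 0 := by
      by_contra hcon
      have h1 : P₀.Ge 0 y₀ := Or.inr (not_lt.mp hcon)
      have h2 : P₀.Ge 0 (y₀ ^ 2 + y₀) := by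
        refine Place.Ge.add ?_ h1
        simpa using h1.pow 2
      rw [heq] at h2
      have h3 := h2.le hF0
      rw [hF1] at h3
      have : (0 : ℤ) < d := by exact_mod_cast hdpos
      omega
    have h4 := (GE1_sq P₀ y₀ hneg).2
    rw [heq, hF1] at h4
    omega
  have hxreg : x ∈ Reg P₀ := by
    intro P hP
    by_contra hcon
    apply hP
    apply hPu
    by_contra h
    exact hcon (Or.inr (not_lt.mp h))
  have hyreg : y₀ ∈ Reg P₀ := by
    intro P hP
    by_contra hcon
    have hneg : P.ord y₀ < 0 := by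
      by_contra h
      exact hcon (Or.inr (not_lt.mp h))
    obtain ⟨h5, h6⟩ := GE1_sq P y₀ hneg
    have h7 := GE1_reg P x (hxreg P hP) (f 0)
    rw [← heq] at h7
    have h8 := h7.le h5
    omega
  -- the automorphism
  have hσy0 : σ y₀ = y₀ + 1 := by
    rw [hy₀, hσy 0 (by norm_num)]
    simp
  have hσreg : ∀ z ∈ Reg P₀, σ z ∈ Reg P₀ := by
    intro z hz P hP
    have h1 : GE1_pl P σ ≠ P₀ := by
      intro h
      apply hP
      apply hPu
      have h2 : (GE1_pl P σ).ord x = P.ord (σ x) := rfl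
      rw [hσx] at h2
      rw [← h2, h]
      exact hPneg
    have h3 := hz _ h1
    rcases h3 with h4 | h4
    · left
      rw [h4, map_zero]
    · right
      exact h4
  have hσfix : ∀ a ∈ k⟮x⟯, σ a = a := by
    intro a ha
    induction ha using IntermediateField.adjoin_induction with
    | mem z hz =>
      rw [Set.mem_singleton_iff.mp hz]
      exact hσx
    | algebraMap c => exact AlgEquiv.commutes σ c
    | add a b _ _ ha hb => rw [map_add, ha, hb]
    | inv a _ ha => rw [map_inv₀, ha]
    | mul a b _ _ ha hb => rw [map_mul, ha, hb]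
  -- the one-point data
  have hOne : OneP P₀ x 2 ![1, y₀] ![0, d] := by
    refine ⟨by norm_num, hxreg, by rw [hPx']; norm_num, ?_, ?_, ?_, ?_, ?_⟩
    · intro i
      fin_cases i
      · exact (Reg P₀).one_mem
      · exact hyreg
    · intro i
      fin_cases i
      · exact one_ne_zero
      · exact hy0
    · intro i
      fin_cases i
      · show P₀.ord 1 = -((0 : ℕ) : ℤ)
        rw [P₀.ord_one]
        simp
      · exact hordy
    · intro i
      fin_cases i
      · rfl
      · show d % 2 = 1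
        exact Nat.odd_iff.mp hodd
    · intro z hz
      have hz1 : z ∈ Submodule.span k⟮x⟯ ({1, y₀} : Set F) := by
        have h1 : (⊤ : Submodule k⟮x⟯ F) ≤ Submodule.span k⟮x⟯ ({1, y₀} : Set F) := by
          rw [← hspan]
          apply Submodule.span_le.mpr
          rintro _ ⟨⟨I, hI⟩, rfl⟩
          apply Submodule.subset_span
          have h2 : I = ∅ ∨ I = {0} := by
            have h3 : I ⊆ {0} := by simpa using hI
            exact Finset.subset_singleton_iff.mp h3
          rcases h2 with h2 | h2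
          · left
            simp [h2]
          · right
            simp [h2, hy₀]
        exact h1 trivial
      obtain ⟨a, b, hab⟩ := Submodule.mem_span_pair.mp hz1
      have hz2 : z = (a : F) + (b : F) * y₀ := by
        rw [← hab, IntermediateField.smul_def, IntermediateField.smul_def, smul_eq_mul, smul_eq_mul, mul_one]
      have hbz : (b : F) = z + σ z := by
        rw [hz2, map_add, map_mul, hσfix a a.2, hσfix b b.2, hσy0]
        have e : (a : F) + (b : F) * y₀ + ((a : F) + (b : F) * (y₀ + 1)) =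
            2 * ((a : F) + (b : F) * y₀) + b := by ring
        rw [e, h2F]
        ring
      have hbreg : (b : F) ∈ Reg P₀ := by
        rw [hbz]
        exact (Reg P₀).add_mem hz (hσreg z hz)
      have hareg : (a : F) ∈ Reg P₀ := by
        have e : (a : F) = z - (b : F) * y₀ := by rw [hz2]; ring
        rw [e]
        exact (Reg P₀).sub_mem hz ((Reg P₀).mul_mem hbreg hyreg)
      obtain ⟨pa, hpa⟩ := hRGX k F hFF x P₀ hA.tr hPneg a a.2 hareg
      obtain ⟨pb, hpb⟩ := hRGX k F hFF x P₀ hA.tr hPneg b b.2 hbreg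
      refine ⟨![pa, pb], ?_⟩
      rw [Fin.sum_univ_two]
      show z = Polynomial.aeval x pa * 1 + Polynomial.aeval x pb * y₀
      rw [← hpa, ← hpb, mul_one]
      exact hz2
  obtain ⟨g, hg⟩ := hQR2 k F hFF
  have h9 := hQA3 k F hFF g hg P₀ x 2 _ _ hOne
  rw [Fin.sum_univ_two] at h9
  have h10 : (2 : ℤ) * (((0 : ℕ) : ℤ) + (d : ℤ)) = ((2 : ℕ) : ℤ) * (2 * (g : ℤ) + ((2 : ℕ) : ℤ) - 1) := h9
  have h11 : (d - 1) / 2 = g := by
    push_cast at h10
    omega
  rw [← hd, h11]
  exact hg

end MX
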