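import Pool.Agent.helper19.MX.SpecA

/-!
# Row HAD: additive equations
-/

namespace MX

open Pool.Agent.helper53.AU AN
open scoped Classical Topology
open Finset (range powerset Icc)

/-- the coefficients of `∑ c_j X^(2^j) - η` -/
noncomputable def HAD_G {L : Type} [Field L] (m : ℕ) (p : (ℕ → L) × L) (i : ℕ) : L :=
  (if i = 0 then -p.2 else 0) + ∑ j ∈ range (m + 1), if i = 2 ^ j then p.1 j else 0

theorem HAD_cont {L : Type} [Field L] [TopologicalSpace L] [IsTopologicalRing L] (m : ℕ) :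
    Continuous (HAD_G m : (ℕ → L) × L → ℕ → L) := by
  apply continuous_pi
  intro i
  unfold HAD_G
  apply Continuous.add
  · by_cases h : i = 0
    · simp only [h, if_true]
      exact continuous_snd.neg
    · simp only [h, if_false]
      exact continuous_const
  · apply continuous_finsetSum
    intro j _
    by_cases h : i = 2 ^ j
    · simp only [h, if_true]
      exact (continuous_apply j).comp continuous_fst
    · simp only [h, if_false]
      exact continuous_const

theorem HAD_sum {L : Type} [Field L] (m : ℕ) (p : (ℕ → L) × L) (w : ℕ → L) :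
    ∑ i ∈ range (2 ^ m + 1), HAD_G m p i * w i =
      ∑ j ∈ range (m + 1), p.1 j * w (2 ^ j) - p.2 * w 0 := by
  unfold HAD_G
  simp only [add_mul, Finset.sum_add_distrib, Finset.sum_mul]
  have e1 : ∑ i ∈ range (2 ^ m + 1), (if i = 0 then -p.2 else 0) * w i = -p.2 * w 0 := by
    rw [Finset.sum_eq_single 0]
    · simp
    · intro b _ hb
      simp [hb]
    · intro h
      exact absurd (Finset.mem_range.mpr (Nat.succ_pos _)) h
  rw [e1, Finset.sum_comm]
  have e2 : ∀ j ∈ range (m + 1), ∑ i ∈ range (2 ^ m + 1), (if i = 2 ^ j then p.1 j else 0) * w i =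
      p.1 j * w (2 ^ j) := by
    intro j hj
    rw [Finset.sum_eq_single (2 ^ j)]
    · simp
    · intro b _ hb
      simp [hb]
    · intro h
      apply absurd _ h
      rw [Finset.mem_range] at hj ⊢
      exact Nat.lt_succ_of_le (Nat.pow_le_pow_right (by norm_num) (by omega))
  rw [Finset.sum_congr rfl e2]
  ring

theorem HAD : HAD_stmt := by
  intro L _ _ _ _ hH m c x₀ η₀ h0 hc U hU
  have h1 : ∑ i ∈ range (2 ^ m + 1), HAD_G m (c, η₀) i * x₀ ^ i = 0 := by
    rw [HAD_sum m (c, η₀) (fun i => x₀ ^ i)]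
    simp only [pow_zero, mul_one]
    rw [h0, sub_self]
  have h2 : ∑ i ∈ range (2 ^ m + 1), (i : L) * HAD_G m (c, η₀) i * x₀ ^ (i - 1) ≠ 0 := by
    have e1 : ∑ i ∈ range (2 ^ m + 1), (i : L) * HAD_G m (c, η₀) i * x₀ ^ (i - 1) =
        ∑ i ∈ range (2 ^ m + 1), HAD_G m (c, η₀) i * ((i : L) * x₀ ^ (i - 1)) :=
      Finset.sum_congr rfl fun i _ => by ring
    rw [e1, HAD_sum m (c, η₀) (fun i => (i : L) * x₀ ^ (i - 1)), Finset.sum_range_succ']
    have h20 : (2 : L) = 0 := CharTwo.two_eq_zero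
    have e2 : ∑ k ∈ range m, (c, η₀).1 (k + 1) * (((2 ^ (k + 1) : ℕ) : L) * x₀ ^ (2 ^ (k + 1) - 1)) = 0 := by
      apply Finset.sum_eq_zero
      intro k _
      push_cast
      rw [pow_succ (2 : L) k, h20]
      ring
    rw [e2]
    simpa using hc
  have h3 := hH (2 ^ m) (HAD_G m (c, η₀)) x₀ h1 h2 U hU
  have h4 := ((HAD_cont m).tendsto (c, η₀)).eventually h3
  filter_upwards [h4] with p hp
  obtain ⟨x, hx, hx0⟩ := hp
  refine ⟨x, hx, ?_⟩
  rw [HAD_sum m p (fun i => x ^ i)] at hx0
  simp only [pow_zero, mul_one] at hx0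
  exact sub_eq_zero.mp hx0

end MX
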